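import Pool.Agent.H140.JQ.Final

/-!
# Factorials and binomial coefficients modulo the primes `(a^q - b^q)/(a - b)`

Let `q` be an odd prime, `a`, `b` coprime integers with `q` not dividing `a - b`, and
`(a - b) N = a^q - b^q`, `N > 1`, `M = (N - 1)/q`.  Modulo `N` the element `g = a/b` is a `q`-th
root of unity.

Idea.  If `N` is prime, the prime ideals of `ℤ[ζ_q]` above `N` are generated by the elements
`a - b ζ^(1/t)`.  The Jacobi sum of the characters `χ^u`, `χ^v` of order `q` is divisible by those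
with `⟨tu⟩ + ⟨tv⟩ < q`, hence is their product up to a unit, a root of unity by Kronecker's
theorem; the root of unity is found from the congruence `J = -1` modulo `(1 - ζ)^2`.  Reduction
modulo the conjugate primes gives all binomial coefficients `((u+v)M choose uM)` modulo `N`, and
the product of those with `v = 1` gives the `q`-th power of `M!`.
-/

set_option autoImplicit false

namespace Pool.Agent.Results.MP_de9007_nt.FactorialCriteria

open Finset Nat

/-- **Factorial criteria for the primes `(a^q - b^q)/(a - b)`.**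
Part 1: `N = (a^q - b^q)/(a - b)` for an odd prime `q` and coprime `a`, `b` with `q ∤ a - b`.
(1a) If `N` is prime, all binomial coefficients `((u+v)M choose uM)`, `M = (N-1)/q`, modulo `N`.
(1b) `N` is prime if and only if `(M!)^q` times an explicit product is `-(a-b | q)` modulo `N`.
Part 2: the case `a = 2`, `b = 1` of the Mersenne numbers.
(2a) `2^q - 1` is prime if and only if `(M!)^q ∏ (2^k - 1)^(e k) = (-1)^((q+1)/2)` modulo
`2^q - 1`, where `1 ≤ k ≤ q - 2` and `e k + 1` is the inverse of `k + 1` modulo `q`.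
(2b) the binomial coefficients. -/
theorem result :
    (∀ (q : ℕ) [Fact q.Prime] (A B : ℤ) (N : ℕ), q ≠ 2 → IsCoprime A B → ¬ (q : ℤ) ∣ A - B →
      (A - B) * N = A ^ q - B ^ q → 1 < N →
      ∃ g : ZMod N, g * B = A ∧ g ^ q = 1 ∧
        (N.Prime → ∀ u v : ℕ, 1 ≤ u → 1 ≤ v → u + v < q →
          (((u + v) * ((N - 1) / q)).choose (u * ((N - 1) / q)) : ZMod N) =
            (legendreSym q (A - B) : ZMod N) *
              ∏ t ∈ univ.filter (fun t : (ZMod q)ˣ => q < (t * u : ZMod q).val + (t * v : ZMod q).val),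
                g ^ ((B : ZMod q) / ((A : ZMod q) - (B : ZMod q)) * (t : ZMod q)⁻¹).val *
                  ((A : ZMod N) - (B : ZMod N) * g ^ ((t : ZMod q)⁻¹).val)) ∧
        (N.Prime ↔
          (((N - 1) / q)! : ZMod N) ^ q *
            g ^ (-((B : ZMod q) / ((A : ZMod q) - (B : ZMod q)))).val *
            ∏ t : (ZMod q)ˣ, ((A : ZMod N) - (B : ZMod N) * g ^ ((t : ZMod q)⁻¹).val) ^
              ((t : ZMod q).val - 1) = -(legendreSym q (A - B) : ZMod N))) ∧
    (∀ q : ℕ, q.Prime → q ≠ 2 →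
      ((2 ^ q - 1).Prime ↔
        ((((2 ^ q - 1) - 1) / q)! : ZMod (2 ^ q - 1)) ^ q *
          ∏ k ∈ Icc 1 (q - 2), ((2 : ZMod (2 ^ q - 1)) ^ k - 1) ^
            ((((k + 1 : ℕ) : ZMod q)⁻¹).val - 1) = (-1) ^ ((q + 1) / 2)) ∧
      ((2 ^ q - 1).Prime → ∀ u v : ℕ, 1 ≤ u → 1 ≤ v → u + v < q →
        (((u + v) * (((2 ^ q - 1) - 1) / q)).choose (u * (((2 ^ q - 1) - 1) / q)) :
          ZMod (2 ^ q - 1)) =
          ∏ s ∈ (Icc 1 (q - 1)).filter (fun s : ℕ =>
            q < ((s : ZMod q)⁻¹ * (u : ZMod q)).val + ((s : ZMod q)⁻¹ * (v : ZMod q)).val),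
            (2 ^ s * (2 - 2 ^ s)))) := by
  refine ⟨?_, ?_⟩
  · intro q hq A B N h2 hc hn hN hN1
    have hB := Pool.Agent.H140.JQ.isUnit_B (q := q) hc hN
    obtain ⟨w, hw⟩ := hB
    have hg : ((A : ZMod N) * ((w⁻¹ : (ZMod N)ˣ) : ZMod N)) * (B : ZMod N) = A := by
      rw [← hw, mul_assoc, Units.inv_mul, mul_one]
    refine ⟨(A : ZMod N) * ((w⁻¹ : (ZMod N)ˣ) : ZMod N), hg,
      Pool.Agent.H140.JQ.gq_one hg hc hN, ?_, ?_⟩
    · intro hp u v hu hv huv
      exact Pool.Agent.H140.JQ.binom_general h2 hc hn hN hg hp hu hv huv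
    · exact Pool.Agent.H140.JQ.criterion_general h2 hc hn hN hN1 hg
  · intro q hq h2
    have : Fact q.Prime := ⟨hq⟩
    exact ⟨Pool.Agent.H140.JQ.mersenne_criterion h2,
      fun hp u v hu hv huv => Pool.Agent.H140.JQ.mersenne_binom h2 hp hu hv huv⟩

end Pool.Agent.Results.MP_de9007_nt.FactorialCriteria
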