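import Mathlib
import Pool.Agent.TH888.R.Base
import Pool.Agent.W66.XG
import Pool.Agent.H447R2.ML.Spec

set_option autoImplicit false

/-!
# The Lenstra-Pomerance-Wagstaff law for every pair `(a, b)`: error term and sets of exponents

For integers `a > 1`, `-a < b < a`, `gcd (a, b) = 1`, a real `β > 0` and a prime `p` let `W a b β p`
be the `p`-rough part (the product, with multiplicity, of the prime factors larger than `p`) of
`⌊β a ^ p - b ^ p / (a - b)⌋`.  At the amplitude `β = 1 / (a - b)` this is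
`(a ^ p - b ^ p) / (a - b)` itself (for `p` prime to `a - b`).  The pair `(a, b)` is fixed.  For a set
`S` let `M S a b β n` be the number of primes `p ≤ n` in `S` with `W a b β p` prime, and let `V S n` be
the sum of `log p / p` over the primes `p ≤ n` in `S`.

We prove that for almost every `β > 0`, simultaneously for all pairs `(a, b)`, the number of primes
`p ≤ n` with `W a b β p` prime is `(e ^ γ / log a) log n + O((log n) ^ (1/2) (log log n) ^ (5/2))`; that
for every set `S` and almost every `β > 0`, for all pairs, there are infinitely many such primes `p` in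
`S` if and only if `V S n` is unbounded, and that in this case
`M S a b β n = (e ^ γ / log a) V S n + O((V L) ^ (1/2) (log (V L)) ^ 2)` with `V = V S n` and
`L = log log n`.
-/

namespace Pool.Agent.Results.MP_de9007_nt.FixedPairSets

open Filter Topology MeasureTheory Asymptotics

/-- The product, with multiplicity, of the prime factors of `m` that are larger than `p`. -/
def roughPart (p m : ℕ) : ℕ := (m.primeFactorsList.filter (fun r => p < r)).prod

/-- The `p`-rough part of `⌊β a ^ p - b ^ p / (a - b)⌋`. -/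
noncomputable def W (a b : ℤ) (β : ℝ) (p : ℕ) : ℕ :=
  roughPart p ⌊β * (a : ℝ) ^ p - (b : ℝ) ^ p / ((a : ℝ) - b)⌋₊

open Classical in
/-- The number of primes `p ≤ n` in the set `S` for which `W a b β p` is prime. -/
noncomputable def M (S : Set ℕ) (a b : ℤ) (β : ℝ) (n : ℕ) : ℕ :=
  ((Finset.range (n + 1)).filter (fun p => p.Prime ∧ p ∈ S ∧ (W a b β p).Prime)).card

open Classical in
/-- The sum of `log p / p` over the primes `p ≤ n` in the set `S`. -/
noncomputable def V (S : Set ℕ) (n : ℕ) : ℝ :=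
  ∑ p ∈ (Finset.range (n + 1)).filter (fun p => p.Prime ∧ p ∈ S), Real.log p / p

open Classical in
/-- The number of primes `p ≤ n` for which `(a ^ p - b ^ p) / (a - b)` is prime. -/
noncomputable def count (a b : ℤ) (n : ℕ) : ℕ :=
  ((Finset.range (n + 1)).filter (fun p => p.Prime ∧ Prime ((a ^ p - b ^ p) / (a - b)))).card

lemma V_eq (S : Set ℕ) (n : ℕ) : V S n = Pool.Agent.TH888.R.VS S n := by
  classical
  unfold V Pool.Agent.TH888.R.VS
  rw [Finset.sum_filter]
  refine Finset.sum_congr rfl fun p _ => ?_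
  by_cases h : p.Prime ∧ p ∈ S
  · rw [if_pos h, if_pos ⟨h.2, h.1⟩]
    rfl
  · rw [if_neg h, if_neg fun h1 => h ⟨h1.2, h1.1⟩]

/-- The special amplitude. -/
lemma special {a b : ℤ} (hab : IsCoprime a b) (h1 : -a < b) (h2 : b < a) {p : ℕ} (hp : p.Prime)
    (hpd : ¬ (p : ℤ) ∣ a - b) : (W a b (1 / ((a : ℝ) - b)) p : ℤ) * (a - b) = a ^ p - b ^ p := by
  have h := Pool.Agent.H447R2.ML.rough_quot hab h1 h2 hp hpd rfl
  have hgeom : (∑ i ∈ Finset.range p, a ^ i * b ^ (p - 1 - i)) * (a - b) = a ^ p - b ^ p :=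
    (Commute.all a b).geom_sum₂_mul p
  rw [← h] at hgeom
  exact hgeom

lemma card_le_of_eventually {s t : ℕ → Prop} [DecidablePred s] [DecidablePred t] (D : ℕ)
    (h : ∀ p, D < p → s p → t p) (n : ℕ) :
    (((Finset.range (n + 1)).filter s).card : ℝ) ≤ (((Finset.range (n + 1)).filter t).card : ℝ) +
      (D + 1 : ℕ) := by
  have h1 : (Finset.range (n + 1)).filter s ⊆ (Finset.range (n + 1)).filter t ∪ Finset.range (D + 1) := by
    intro p hp
    rw [Finset.mem_filter] at hp
    rw [Finset.mem_union, Finset.mem_filter]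
    by_cases hD : D < p
    · exact Or.inl ⟨hp.1, h p hD hp.2⟩
    · exact Or.inr (Finset.mem_range.2 (by omega))
  have h2 := (Finset.card_le_card h1).trans (Finset.card_union_le _ _)
  rw [Finset.card_range] at h2
  exact_mod_cast h2

lemma M_univ (a b : ℤ) (β : ℝ) (n : ℕ) : M Set.univ a b β n =
    ((Finset.range (n + 1)).filter (fun p => p.Prime ∧ (W a b β p).Prime)).card := by
  unfold M
  congr 1
  ext p
  simp

/-- the counting function of the question and that of the special amplitude differ by a bounded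
amount -/
lemma count_close {a b : ℤ} (hab : IsCoprime a b) (h1 : -a < b) (h2 : b < a) :
    ∃ D : ℕ, ∀ n : ℕ, |(count a b n : ℝ) - M Set.univ a b (1 / ((a : ℝ) - b)) n| ≤ D := by
  classical
  have key : ∀ p : ℕ, (a - b).natAbs < p → p.Prime →
      ((W a b (1 / ((a : ℝ) - b)) p).Prime ↔ Prime ((a ^ p - b ^ p) / (a - b))) := by
    intro p hD hp
    have h3 : ¬ (p : ℤ) ∣ a - b := by
      intro hd
      have h4 := Int.natAbs_dvd_natAbs.2 hd
      rw [Int.natAbs_natCast] at h4
      have h5 := Nat.le_of_dvd (Int.natAbs_pos.2 (by omega)) h4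
      omega
    have h4 := special hab h1 h2 hp h3
    rw [← h4, Int.mul_ediv_cancel _ (by omega)]
    exact Nat.prime_iff_prime_int
  refine ⟨(a - b).natAbs + 1, fun n => ?_⟩
  have e1 : (M Set.univ a b (1 / ((a : ℝ) - b)) n : ℝ) ≤ count a b n + ((a - b).natAbs + 1 : ℕ) := by
    rw [M_univ]
    exact card_le_of_eventually (a - b).natAbs
      (fun p hD hp => ⟨hp.1, (key p hD hp.1).1 hp.2⟩) n
  have e2 : (count a b n : ℝ) ≤ M Set.univ a b (1 / ((a : ℝ) - b)) n + ((a - b).natAbs + 1 : ℕ) := by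
    rw [M_univ]
    exact card_le_of_eventually (a - b).natAbs
      (fun p hD hp => ⟨hp.1, (key p hD hp.1).2 hp.2⟩) n
  rw [abs_le]
  constructor <;> linarith

lemma pt1 (S : Set ℕ) (a b : ℤ) (ha : 1 < a) (h1 : -a < b) (h2 : b < a) : ∀ᵐ β : ℝ, 0 < β →
    Pool.Agent.TH888.R.Pt (fun p => ⌊β * (a : ℝ) ^ p - (b : ℝ) ^ p / ((a : ℝ) - b)⌋₊)
      (Real.exp Real.eulerMascheroniConstant / Real.log a) S := by
  obtain ⟨A, hA⟩ := Int.eq_ofNat_of_zero_le (show 0 ≤ a by omega)
  have hA2 : 2 ≤ A := by omega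
  have hA1 : (1 : ℝ) < A := by exact_mod_cast (by omega : 1 < A)
  have hbr : |(b : ℝ)| < (A : ℝ) := by
    have h3 : |b| < a := abs_lt.2 ⟨h1, h2⟩
    rw [hA] at h3
    exact_mod_cast h3
  have hab : (0 : ℝ) < (A : ℝ) - b := by
    have := le_abs_self (b : ℝ)
    linarith
  have hg : ∀ p : ℕ, |(fun p : ℕ => -((b : ℝ) ^ p / ((A : ℝ) - b))) p| ≤
      (1 / ((A : ℝ) - b)) * |(b : ℝ)| ^ p := by
    intro p
    simp only
    rw [abs_neg, abs_div, abs_pow, abs_of_pos hab]
    exact le_of_eq (by ring)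
  have key := Pool.Agent.TH888.R.pt_floor (α := (A : ℝ)) (κ := |(b : ℝ)|) (C := 1 / ((A : ℝ) - b))
    (g := fun p => -((b : ℝ) ^ p / ((A : ℝ) - b))) hA1 (abs_nonneg _) hbr hg
    (Pool.Agent.TH888.R.near_base (b := A) hA2 (abs_nonneg _) hbr hg) S
  have e : (a : ℝ) = (A : ℝ) := by rw [hA]; simp
  rw [e]
  simp only [← sub_eq_add_neg] at key
  exact key

lemma pt (S : Set ℕ) : ∀ᵐ β : ℝ, 0 < β → ∀ a b : ℤ, 1 < a → -a < b → b < a →
    Pool.Agent.TH888.R.Pt (fun p => ⌊β * (a : ℝ) ^ p - (b : ℝ) ^ p / ((a : ℝ) - b)⌋₊)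
      (Real.exp Real.eulerMascheroniConstant / Real.log a) S := by
  have h : ∀ a b : ℤ, ∀ᵐ β : ℝ, 1 < a → -a < b → b < a → 0 < β →
      Pool.Agent.TH888.R.Pt (fun p => ⌊β * (a : ℝ) ^ p - (b : ℝ) ^ p / ((a : ℝ) - b)⌋₊)
      (Real.exp Real.eulerMascheroniConstant / Real.log a) S := by
    intro a b
    by_cases hc : 1 < a ∧ -a < b ∧ b < a
    · filter_upwards [pt1 S a b hc.1 hc.2.1 hc.2.2] with β hβ _ _ _
      exact hβ
    · exact Eventually.of_forall fun β h1 h2 h3 => absurd ⟨h1, h2, h3⟩ hc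
  filter_upwards [ae_all_iff.2 fun a => ae_all_iff.2 (h a)] with β hβ h0 a b ha h1 h2
  exact hβ a b ha h1 h2 h0

lemma M_eq (S : Set ℕ) (a b : ℤ) (β : ℝ) (n : ℕ) :
    M S a b β n = Pool.Agent.TH888.R.cS S
      (fun p => ⌊β * (a : ℝ) ^ p - (b : ℝ) ^ p / ((a : ℝ) - b)⌋₊) n := by
  classical
  unfold M Pool.Agent.TH888.R.cS
  rfl

/-- The numbers `(a ^ p - b ^ p) / (a - b)` are the values at `β = 1 / (a - b)`, where the counting
function is that of the question up to a bounded error.  For almost every amplitude and all pairs the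
law holds with a square root error term; for every set of primes the number of prime values is finite
or infinite according to the weight of the set, and in the second case it obeys the corresponding
law. -/
theorem result :
    (∀ a b : ℤ, IsCoprime a b → -a < b → b < a → ∀ p : ℕ, p.Prime → ¬ (p : ℤ) ∣ a - b →
      (W a b (1 / ((a : ℝ) - b)) p : ℤ) * (a - b) = a ^ p - b ^ p) ∧
    (∀ a b : ℤ, IsCoprime a b → -a < b → b < a →
      ∃ D : ℕ, ∀ n : ℕ, |(count a b n : ℝ) - M Set.univ a b (1 / ((a : ℝ) - b)) n| ≤ D) ∧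
    (∀ᵐ β : ℝ, 0 < β → ∀ a b : ℤ, 1 < a → -a < b → b < a →
      (fun n : ℕ => (M Set.univ a b β n : ℝ) -
        Real.exp Real.eulerMascheroniConstant / Real.log a * Real.log n) =O[atTop]
      (fun n : ℕ => Real.sqrt (Real.log n) * (Real.log (Real.log n)) ^ ((5 : ℝ) / 2))) ∧
    (∀ S : Set ℕ, Tendsto (V S) atTop atTop → ∀ᵐ β : ℝ, 0 < β → ∀ a b : ℤ, 1 < a → -a < b → b < a →
      (fun n : ℕ => (M S a b β n : ℝ) -
        Real.exp Real.eulerMascheroniConstant / Real.log a * V S n) =O[atTop]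
      (fun n : ℕ => Real.sqrt (V S n * Real.log (Real.log n)) *
        (Real.log (V S n * Real.log (Real.log n))) ^ 2)) ∧
    (∀ S : Set ℕ, ∀ᵐ β : ℝ, 0 < β → ∀ a b : ℤ, 1 < a → -a < b → b < a →
      ({p : ℕ | p.Prime ∧ p ∈ S ∧ (W a b β p).Prime}.Infinite ↔ Tendsto (V S) atTop atTop)) := by
  have hV : ∀ S, V S = Pool.Agent.TH888.R.VS S := fun S => funext fun n => V_eq S n
  refine ⟨fun a b hab h1 h2 p hp hpd => special hab h1 h2 hp hpd,
    fun a b hab h1 h2 => count_close hab h1 h2, ?_, fun S hS => ?_, fun S => ?_⟩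
  · filter_upwards [pt Set.univ] with β hβ h0 a b ha h1 h2
    obtain ⟨B, hB, h⟩ := (hβ h0 a b ha h1 h2).law Pool.Agent.TH888.R.VS_univ_tendsto
    simp only [M_eq]
    exact Pool.Agent.TH888.R.bigO_all hB h
  · rw [hV] at hS ⊢
    filter_upwards [pt S] with β hβ h0 a b ha h1 h2
    obtain ⟨B, hB, h⟩ := (hβ h0 a b ha h1 h2).law hS
    simp only [M_eq]
    exact Pool.Agent.TH888.R.bigO_set hB hS h
  · rw [hV]
    filter_upwards [pt S] with β hβ h0 a b ha h1 h2
    constructor
    · intro hi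
      by_contra hn
      exact hi ((hβ h0 a b ha h1 h2).fin hn)
    · exact (hβ h0 a b ha h1 h2).inf

end Pool.Agent.Results.MP_de9007_nt.FixedPairSets
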