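import Mathlib
import Pool.Agent.Q160.TB6
import Pool.Agent.H447R2.ML.Spec

set_option autoImplicit false

/-!
# Primes near `(a ^ p - b ^ p) / (a - b)`, in intervals of length `a ^ (s p)`

For integers `a > 1` and `-a < b < a` let `P a b p = (a ^ p - b ^ p) / (a - b)`.  For `0 < s < 1` and
`0 ≤ θ < 1` let `N a b s θ p = P a b p + ⌊θ a ^ ⌊s p⌋⌋`, an integer of the interval
`[P a b p, P a b p + a ^ (s p))`, and let `M S a b s θ n` be the number of primes `p ≤ n` in `S` for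
which the `p`-rough part of `N a b s θ p` is prime; for `θ = 0` these are the numbers `P a b p`
themselves.  We prove, with Hoheisel's theorem, that there is `δ > 0` such that for all pairs `(a, b)`,
every `s` in `[1 - δ, 1)` and almost every `θ` we have `c log n ≤ M a b s θ n ≤ C log n` for all large
`n`, where `c` and `C` depend on `a` only, with the dichotomy and the same bounds for every set of
primes.
-/

namespace Pool.Agent.Results.MP_de9007_nt.LeadingDigits

open Filter Topology MeasureTheory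

/-- The product, with multiplicity, of the prime factors of `m` that are larger than `p`. -/
def roughPart (p m : ℕ) : ℕ := (m.primeFactorsList.filter (fun r => p < r)).prod

/-- The number `(a ^ p - b ^ p) / (a - b)`. -/
def P (a b : ℤ) (p : ℕ) : ℕ := ((a ^ p - b ^ p) / (a - b)).toNat

/-- An integer of the interval `[P a b p, P a b p + a ^ (s p))`. -/
noncomputable def N (a b : ℤ) (s θ : ℝ) (p : ℕ) : ℕ := P a b p + ⌊θ * (a : ℝ) ^ ⌊s * p⌋₊⌋₊

open Classical in
/-- The number of primes `p ≤ n` in `S` for which the `p`-rough part of `N a b s θ p` is prime. -/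
noncomputable def M (S : Set ℕ) (a b : ℤ) (s θ : ℝ) (n : ℕ) : ℕ :=
  ((Finset.range (n + 1)).filter
    (fun p => p.Prime ∧ p ∈ S ∧ (roughPart p (N a b s θ p)).Prime)).card

open Classical in
/-- The sum of `log p / p` over the primes `p ≤ n` in `S`. -/
noncomputable def V (S : Set ℕ) (n : ℕ) : ℝ :=
  ∑ p ∈ (Finset.range (n + 1)).filter (fun p => p.Prime ∧ p ∈ S), Real.log p / p

lemma V_eq (S : Set ℕ) (n : ℕ) : V S n = Pool.Agent.TH888.R.VS S n := by
  classical
  unfold V Pool.Agent.TH888.R.VS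
  rw [Finset.sum_filter]
  refine Finset.sum_congr rfl fun p _ => ?_
  by_cases h : p.Prime ∧ p ∈ S
  · rw [if_pos h, if_pos ⟨h.2, h.1⟩]
    rfl
  · rw [if_neg h, if_neg fun h1 => h ⟨h1.2, h1.1⟩]

/-- size of `a ^ p - b ^ p` -/
lemma size_low {a b : ℤ} (ha : 1 < a) (h1 : -a < b) (h2 : b < a) (p : ℕ) (hp : 1 ≤ p) :
    a ^ (p - 1) ≤ a ^ p - b ^ p := by
  obtain ⟨k, rfl⟩ : ∃ k, p = k + 1 := ⟨p - 1, by omega⟩
  have h3 : |b| ≤ a - 1 := by
    have : |b| < a := abs_lt.2 ⟨h1, h2⟩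
    omega
  have h4 : b ^ (k + 1) ≤ (a - 1) * a ^ k := by
    calc b ^ (k + 1) ≤ |b ^ (k + 1)| := le_abs_self _
      _ = |b| * |b| ^ k := by rw [abs_pow, pow_succ, mul_comm]
      _ ≤ (a - 1) * a ^ k := by
          refine mul_le_mul h3 (pow_le_pow_left₀ (abs_nonneg b) (by omega) k)
            (pow_nonneg (abs_nonneg b) k) (by omega)
  rw [Nat.add_sub_cancel, pow_succ]
  nlinarith

lemma P_mul {a b : ℤ} (ha : 1 < a) (h1 : -a < b) (h2 : b < a) {p : ℕ} (hp : 1 ≤ p) :
    (P a b p : ℤ) * (a - b) = a ^ p - b ^ p := by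
  have h3 : (a - b) ∣ a ^ p - b ^ p := sub_dvd_pow_sub_pow a b p
  have h4 := Int.ediv_mul_cancel h3
  have h5 := size_low ha h1 h2 p hp
  have h6 : 0 ≤ (a ^ p - b ^ p) / (a - b) := by
    refine Int.ediv_nonneg (le_trans (by positivity) h5) (by omega)
  unfold P
  rw [Int.toNat_of_nonneg h6]
  exact h4

/-- The special values. -/
lemma rough_P {a b : ℤ} (hab : IsCoprime a b) (ha : 1 < a) (h1 : -a < b) (h2 : b < a) {p : ℕ}
    (hp : p.Prime) (hpd : ¬ (p : ℤ) ∣ a - b) : roughPart p (P a b p) = P a b p := by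
  have hP := P_mul ha h1 h2 (p := p) hp.one_lt.le
  have hPr : ((P a b p : ℕ) : ℝ) * ((a : ℝ) - b) = (a : ℝ) ^ p - (b : ℝ) ^ p := by exact_mod_cast hP
  have hb0 : (0 : ℝ) < (a : ℝ) - b := by
    have : (b : ℝ) < a := by exact_mod_cast h2
    linarith
  have hr := Pool.Agent.H447R2.ML.rough_quot hab h1 h2 hp hpd (x := ((P a b p : ℕ) : ℝ)) (by
    have hne : (a : ℝ) - b ≠ 0 := hb0.ne'
    field_simp
    linarith)
  rw [Nat.floor_natCast] at hr
  have hgeom : (∑ i ∈ Finset.range p, a ^ i * b ^ (p - 1 - i)) * (a - b) = a ^ p - b ^ p :=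
    (Commute.all a b).geom_sum₂_mul p
  rw [← hr] at hgeom
  have h4 : ((roughPart p (P a b p) : ℕ) : ℤ) * (a - b) = a ^ p - b ^ p := by
    have h5 : (roughPart p (P a b p) : ℤ) = (Pool.Agent.H305R2.roughPart p (P a b p) : ℤ) := rfl
    rw [h5]
    linarith
  have h6 : ((roughPart p (P a b p) : ℕ) : ℤ) * (a - b) = (P a b p : ℤ) * (a - b) := by
    rw [hP, h4]
  have h7 := mul_right_cancel₀ (show a - b ≠ 0 by omega) h6
  exact_mod_cast h7

lemma M_eq (S : Set ℕ) (a b : ℤ) (s θ : ℝ) (n : ℕ) :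
    M S a b s θ n = Pool.Agent.TH888.R.cS S (N a b s θ) n := by
  classical
  unfold M Pool.Agent.TH888.R.cS
  rfl

/-- The numbers for `θ = 0` are the numbers `(a ^ p - b ^ p) / (a - b)`, their own `p`-rough parts; for
almost every `θ` the counting function has the order of magnitude `log n`, and for sets of primes the
order of magnitude of `V`. -/
theorem result :
    (∀ a b : ℤ, IsCoprime a b → 1 < a → -a < b → b < a → ∀ s : ℝ, ∀ p : ℕ, p.Prime →
      ¬ (p : ℤ) ∣ a - b → (P a b p : ℤ) * (a - b) = a ^ p - b ^ p ∧ N a b s 0 p = P a b p ∧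
        roughPart p (P a b p) = P a b p) ∧
    ∃ δ : ℝ, 0 < δ ∧ δ < 1 ∧ ∀ a : ℤ, 1 < a → ∃ c C : ℝ, 0 < c ∧ 0 < C ∧
      ∀ b : ℤ, -a < b → b < a → ∀ s : ℝ, 1 - δ ≤ s → s < 1 →
      (∀ᵐ θ : ℝ, θ ∈ Set.Ico (0 : ℝ) 1 → ∀ᶠ n : ℕ in atTop,
        c * Real.log n ≤ M Set.univ a b s θ n ∧ (M Set.univ a b s θ n : ℝ) ≤ C * Real.log n) ∧
      (∀ S : Set ℕ, Tendsto (V S) atTop atTop → ∀ᵐ θ : ℝ, θ ∈ Set.Ico (0 : ℝ) 1 →
        ∀ᶠ n : ℕ in atTop, c * V S n ≤ M S a b s θ n ∧ (M S a b s θ n : ℝ) ≤ C * V S n) ∧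
      (∀ S : Set ℕ, ∀ᵐ θ : ℝ, θ ∈ Set.Ico (0 : ℝ) 1 →
        ({p : ℕ | p.Prime ∧ p ∈ S ∧ (roughPart p (N a b s θ p)).Prime}.Infinite ↔
          Tendsto (V S) atTop atTop)) := by
  classical
  have hV : ∀ S, V S = Pool.Agent.TH888.R.VS S := fun S => funext fun n => V_eq S n
  refine ⟨fun a b hab ha h1 h2 s p hp hpd => ⟨P_mul ha h1 h2 hp.one_lt.le, ?_,
    rough_P hab ha h1 h2 hp hpd⟩, ?_⟩
  · unfold N
    simp
  · obtain ⟨δ, hδ, hδ1, h⟩ := Pool.Agent.Q160.TB.plus_law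
    refine ⟨δ, hδ, hδ1, fun a ha => ?_⟩
    obtain ⟨A, hA⟩ := Int.eq_ofNat_of_zero_le (show 0 ≤ a by omega)
    have hA2 : 2 ≤ A := by omega
    obtain ⟨c1, c2, hc1, hc2, hpt⟩ := h A hA2 1 one_pos
    refine ⟨c1 / 2, 2 * c2, by positivity, by positivity, fun b h1 h2 s hs hs1 => ?_⟩
    have hb0 : (0 : ℝ) < (A : ℝ) := by exact_mod_cast (by omega : 0 < A)
    have haA : (a : ℝ) = (A : ℝ) := by rw [hA]; simp
    have hall : ∀ S : Set ℕ, ∀ᵐ θ : ℝ, θ ∈ Set.Ico (0 : ℝ) 1 →
        Pool.Agent.Q160.TB.PtO (N a b s θ) c1 c2 S := by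
      intro S
      have h3 := hpt s hs hs1 (P a b) 2 (by
        have hev : ∀ᶠ p : ℕ in atTop, 3 / (1 - s) ≤ (p : ℝ) :=
          tendsto_natCast_atTop_atTop.eventually_ge_atTop _
        filter_upwards [hev, eventually_ge_atTop 1] with p hp hp1
        rw [div_le_iff₀ (by linarith)] at hp
        rw [one_mul]
        have h4 : ⌊s * (p : ℝ)⌋₊ + 3 ≤ p := by
          have h5 : ((⌊s * (p : ℝ)⌋₊ : ℕ) : ℝ) ≤ s * p :=
            Nat.floor_le (mul_nonneg (by linarith) (Nat.cast_nonneg p))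
          have h6 : ((⌊s * (p : ℝ)⌋₊ : ℕ) : ℝ) + 3 ≤ p := by linarith
          exact_mod_cast h6
        have h7 := P_mul ha h1 h2 hp1
        have h8 := size_low ha h1 h2 p hp1
        have h9 : (a - b) * 1 ≤ a * a := by nlinarith
        obtain ⟨r, hr⟩ : ∃ r, r = ⌊s * (p : ℝ)⌋₊ := ⟨_, rfl⟩
        rw [← hr] at h4 ⊢
        have h10 : a ^ r * (a - b) ≤ (P a b p : ℤ) * (a - b) := by
          rw [h7]
          calc a ^ r * (a - b) ≤ a ^ r * (a * a) :=
                mul_le_mul_of_nonneg_left (by linarith) (by positivity)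
            _ = a ^ (r + 2) := by ring
            _ ≤ a ^ (p - 1) := pow_le_pow_right₀ (by omega) (by omega)
            _ ≤ a ^ p - b ^ p := h8
        have h11 := le_of_mul_le_mul_right h10 (by omega)
        rw [hA] at h11 ⊢
        exact_mod_cast h11) (by
        filter_upwards [eventually_ge_atTop 1] with p hp1
        have h5 : Real.exp (Real.log (A : ℝ) * (1 * (p : ℝ))) = (A : ℝ) ^ p := by
          rw [one_mul, mul_comm, Real.exp_nat_mul, Real.exp_log hb0]
        rw [h5]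
        have h7 := P_mul ha h1 h2 hp1
        have h12 : -b ^ p ≤ a ^ p := by
          calc -b ^ p ≤ |b ^ p| := neg_le_abs _
            _ = |b| ^ p := abs_pow _ _
            _ ≤ a ^ p := pow_le_pow_left₀ (abs_nonneg b) (abs_lt.2 ⟨h1, h2⟩).le p
        have h13 : (P a b p : ℤ) * 1 ≤ (P a b p : ℤ) * (a - b) :=
          mul_le_mul_of_nonneg_left (by omega) (by positivity)
        have h14 : (P a b p : ℤ) ≤ 2 * a ^ p := by linarith
        rw [hA] at h14
        have h15 : ((P (A : ℤ) b p : ℕ) : ℤ) ≤ ((2 * A ^ p : ℕ) : ℤ) := by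
          push_cast
          exact h14
        have h16 : P (A : ℤ) b p ≤ 2 * A ^ p := by exact_mod_cast h15
        rw [hA]
        exact_mod_cast h16) S
      simp only [one_mul] at h3
      unfold N
      rw [haA]
      exact h3
    obtain ⟨r1, r2, r3⟩ := Pool.Agent.Q160.TB.conc hc1 hc2 hall
    refine ⟨?_, fun S hS => ?_, fun S => ?_⟩
    · simp only [M_eq]
      exact r1
    · rw [hV] at hS ⊢
      simp only [M_eq]
      exact r2 S hS
    · rw [hV]
      exact r3 S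

end Pool.Agent.Results.MP_de9007_nt.LeadingDigits
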