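import Pool.Agent.Q217.SG.PairTwo
import Pool.Agent.Q217.SG.ConverseFour

/-!
# The numbers `(a ^ p - b ^ p) / (a - b)` behave like primes for sparse forms in `a` and `b` exactly
for the admissible pairs

We consider values `∑_{i < k} c_i a ^ α_i b ^ (m - α_i)` at `(a, b)` of forms of arbitrary degree
`m` with few terms.

(1) Let `(a, b)` be an admissible pair, `p` a prime and `x_1 ⋯ x_r = q M_p(a, b)`, `r ≥ 2`, where the
`x_t` and `q` are values of forms, with degrees `∑ m_t = m_q + p - 1`, and with `K` terms in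
total. If `(K + 1) (2 r) ^ (K / 2) h < p`, where `h` is the integral part of the logarithm to the
base `a` of `(a - b)` times the product of the sums of the `|c|` over the terms of the `x_t` plus
`2 |b|` times the corresponding sum for `q`, then `M_p(a, b)` divides one of the `x_t`.

(2) A pair of coprime integers with `a > 1`, `- a < b < a` is admissible if and only if for all
`K`, `C` and all sufficiently large primes `p` Euclid's lemma holds for `M_p(a, b)` and all products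
`x y = q M_p(a, b)` of values of forms with at most `K` terms and coefficients of absolute value
at most `C`.
-/

set_option autoImplicit false

namespace Pool.Agent.Results.MP_de9007_nt.SparseForms

open Finset Q217.SG

/-- The admissible pairs of the problem. -/
def Admissible (a b : ℤ) : Prop :=
  IsCoprime a b ∧ 1 < a ∧ -a < b ∧ b < a ∧
    (¬ ∃ r : ℕ, 1 < r ∧ ∃ u v : ℤ, a = u ^ r ∧ b = v ^ r) ∧ ¬ ∃ f : ℤ, -4 * a * b = f ^ 4

/-- The number `M_p(a, b) = (a ^ p - b ^ p) / (a - b)`. -/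
def M (a b : ℤ) (p : ℕ) : ℤ := (a ^ p - b ^ p) / (a - b)

/-- The value at `(a, b)` of the form of degree `m` with coefficients `c_i` at the monomials
`a ^ α_i b ^ (m - α_i)`. -/
def value {k : ℕ} (a b : ℤ) (m : ℕ) (c : Fin k → ℤ) (α : Fin k → ℕ) : ℤ :=
  ∑ i, c i * (a ^ α i * b ^ (m - α i))

/-- `x` is the value at `(a, b)` of a form of degree `m` with at most `K` terms and coefficients of
absolute value at most `C`. -/
def Sparse (a b : ℤ) (m K C : ℕ) (x : ℤ) : Prop :=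
  ∃ k : ℕ, k ≤ K ∧ ∃ (c : Fin k → ℤ) (α : Fin k → ℕ), (∀ i, |c i| ≤ C) ∧ (∀ i, α i ≤ m) ∧
    x = value a b m c α

theorem Admissible.good {a b : ℤ} (h : Admissible a b) : Good a b := by
  obtain ⟨h1, h2, h3, h4, h5, h6⟩ := h
  refine ⟨h2, h1, ?_, ?_, h6⟩
  · rintro rfl
    rw [isCoprime_zero_right, Int.isUnit_iff] at h1
    omega
  · intro p hp hcon
    exact h5 ⟨p, hp.one_lt, hcon⟩

theorem Admissible.abs_lt {a b : ℤ} (h : Admissible a b) : |b| < a := by
  exact _root_.abs_lt.2 ⟨h.2.2.1, h.2.2.2.1⟩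

theorem value_eq {k : ℕ} (a b : ℤ) (m : ℕ) (c : Fin k → ℤ) (α : Fin k → ℕ) :
    value a b m c α = form a b m c α := rfl

theorem value_zero {k : ℕ} (a b : ℤ) (m : ℕ) (c : Fin k → ℤ) (α : Fin k → ℕ)
    (h : ∑ i, (c i).natAbs = 0) : value a b m c α = 0 := by
  have h1 : ∀ i, c i = 0 := by
    intro i
    have := (Finset.sum_eq_zero_iff.1 h) i (Finset.mem_univ i)
    simpa using this
  simp [value, h1]

theorem part1 {a b : ℤ} (h : Admissible a b) {p r l : ℕ} (hp : p.Prime) (hr : 2 ≤ r)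
    (k : Fin r → ℕ) (c : ∀ t, Fin (k t) → ℤ) (α : ∀ t, Fin (k t) → ℕ) (m : Fin r → ℕ)
    (d : Fin l → ℤ) (β : Fin l → ℕ) (mq : ℕ) (hα : ∀ t i, α t i ≤ m t) (hβ : ∀ j, β j ≤ mq)
    (hdeg : ∑ t, m t + 1 = mq + p)
    (hprod : ∏ t, value a b (m t) (c t) (α t) = value a b mq d β * M a b p)
    (hbig : ((∑ t, k t + l + 1 : ℕ) : ℝ) * Real.sqrt (2 * r) ^ (∑ t, k t + l) *
      Nat.log a.natAbs ((a - b).natAbs * ∏ t, ∑ i, (c t i).natAbs +
        2 * b.natAbs * ∑ j, (d j).natAbs) < p) :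
    ∃ t, M a b p ∣ value a b (m t) (c t) (α t) := by
  have ha1 := h.2.1
  have hba := h.abs_lt
  by_cases h0 : ∃ t, ∑ i, (c t i).natAbs = 0
  · obtain ⟨t, ht⟩ := h0
    exact ⟨t, by rw [value_zero _ _ _ _ _ ht]; exact dvd_zero _⟩
  push Not at h0
  by_cases hd : ∑ j, (d j).natAbs = 0
  · rw [value_zero a b mq d β hd, zero_mul, Finset.prod_eq_zero_iff] at hprod
    obtain ⟨t, -, ht⟩ := hprod
    exact ⟨t, by rw [ht]; exact dvd_zero _⟩
  refine euclid_pair h.good hba.le (n := p) hr c α m d β mq hα hβ hdeg ?_ (Mp_mul a b p) hprod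
    hbig
  intro q hq hqp
  have hqe : q = p := (Nat.prime_dvd_prime_iff_eq hq hp).1 hqp
  rw [hqe]
  have hprod1 : 1 ≤ ∏ t, ∑ i, (c t i).natAbs :=
    Nat.one_le_iff_ne_zero.2 (Finset.prod_ne_zero_iff.2 (fun t _ => h0 t))
  have hlog : 1 ≤ Nat.log a.natAbs ((a - b).natAbs * ∏ t, ∑ i, (c t i).natAbs +
        2 * b.natAbs * ∑ j, (d j).natAbs) := by
    apply Nat.log_pos (by omega)
    have h1 : (a - b).natAbs * 1 ≤ (a - b).natAbs * ∏ t, ∑ i, (c t i).natAbs :=
      Nat.mul_le_mul_left _ hprod1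
    have h2 : 2 * b.natAbs * 1 ≤ 2 * b.natAbs * ∑ j, (d j).natAbs :=
      Nat.mul_le_mul_left _ (Nat.one_le_iff_ne_zero.2 hd)
    omega
  refine lt_of_le_of_lt ?_ hbig
  have h3 : (1 : ℝ) ≤ ((∑ t, k t + l + 1 : ℕ) : ℝ) := by
    exact_mod_cast (by omega : 1 ≤ ∑ t, k t + l + 1)
  have h4 : (1 : ℝ) ≤ Nat.log a.natAbs ((a - b).natAbs * ∏ t, ∑ i, (c t i).natAbs +
        2 * b.natAbs * ∑ j, (d j).natAbs) := by exact_mod_cast hlog
  have h5 := sqrt_pow_ge_one hr (∑ t, k t + l)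
  calc Real.sqrt (2 * r) ^ (∑ t, k t + l) = 1 * Real.sqrt (2 * r) ^ (∑ t, k t + l) * 1 := by ring
    _ ≤ _ := by
      apply mul_le_mul _ h4 (by norm_num) (by positivity)
      exact mul_le_mul_of_nonneg_right h3 (by positivity)

/-- Euclid's lemma for forms with at most `K` terms and coefficients at most `C`. -/
def Euclid (a b : ℤ) (K C p : ℕ) : Prop :=
  ∀ (m₁ m₂ mq : ℕ) (x y q : ℤ), m₁ + m₂ + 1 = mq + p → Sparse a b m₁ K C x →
    Sparse a b m₂ K C y → Sparse a b mq K C q → x * y = q * M a b p →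
      M a b p ∣ x ∨ M a b p ∣ y

theorem sum_natAbs_le {k K C : ℕ} (hk : k ≤ K) (c : Fin k → ℤ) (hc : ∀ i, |c i| ≤ C) :
    ∑ i, (c i).natAbs ≤ K * C := by
  calc ∑ i, (c i).natAbs ≤ ∑ _i : Fin k, C := by
        apply Finset.sum_le_sum
        intro i _
        have := hc i
        rw [Int.abs_eq_natAbs] at this
        exact_mod_cast this
    _ = k * C := by simp
    _ ≤ K * C := Nat.mul_le_mul_right _ hk

theorem part2 {a b : ℤ} (h : Admissible a b) (K C : ℕ) :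
    ∃ p₀ : ℕ, ∀ p, p₀ ≤ p → p.Prime → Euclid a b K C p := by
  have ha1 := h.2.1
  have hba := h.abs_lt
  refine ⟨(3 * K + 1) * 2 ^ (3 * K) * (Nat.log a.natAbs ((a - b).natAbs * ((K * C) * (K * C)) +
        2 * b.natAbs * (K * C)) + 1) + 1, ?_⟩
  intro p hp hpp m₁ m₂ mq x y q hdeg hx hy hq hxy
  obtain ⟨k₁, hk₁, c₁, α₁, hc₁, hα₁, rfl⟩ := hx
  obtain ⟨k₂, hk₂, c₂, α₂, hc₂, hα₂, rfl⟩ := hy
  obtain ⟨l, hl, d, β, hd, hβ, rfl⟩ := hq
  have hpow : 2 ^ (k₁ + k₂ + l) ≤ 2 ^ (3 * K) :=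
    Nat.pow_le_pow_right (by norm_num) (by omega)
  have hlog : Nat.log a.natAbs ((a - b).natAbs * ((∑ i, (c₁ i).natAbs) * ∑ i, (c₂ i).natAbs) +
        2 * b.natAbs * ∑ j, (d j).natAbs) ≤
      Nat.log a.natAbs ((a - b).natAbs * ((K * C) * (K * C)) + 2 * b.natAbs * (K * C)) := by
    apply Nat.log_mono_right
    apply Nat.add_le_add
    · apply Nat.mul_le_mul_left
      exact Nat.mul_le_mul (sum_natAbs_le hk₁ c₁ hc₁) (sum_natAbs_le hk₂ c₂ hc₂)
    · exact Nat.mul_le_mul_left _ (sum_natAbs_le hl d hd)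
  refine euclid_two h.good hba.le (n := p) c₁ α₁ m₁ c₂ α₂ m₂ d β mq hα₁ hα₂ hβ hdeg ?_
    (Mp_mul a b p) hxy ?_
  · intro q hq hqp
    have hqe : q = p := (Nat.prime_dvd_prime_iff_eq hq hpp).1 hqp
    rw [hqe]
    calc 2 ^ (k₁ + k₂ + l) ≤ 2 ^ (3 * K) := hpow
      _ = 1 * 2 ^ (3 * K) * 1 := by ring
      _ ≤ (3 * K + 1) * 2 ^ (3 * K) * (Nat.log a.natAbs ((a - b).natAbs * ((K * C) * (K * C)) +
          2 * b.natAbs * (K * C)) + 1) := by
          apply Nat.mul_le_mul _ (by omega)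
          exact Nat.mul_le_mul_right _ (by omega)
      _ < p := by omega
  · calc (k₁ + k₂ + l + 1) * 2 ^ (k₁ + k₂ + l) *
        Nat.log a.natAbs ((a - b).natAbs * ((∑ i, (c₁ i).natAbs) * ∑ i, (c₂ i).natAbs) +
          2 * b.natAbs * ∑ j, (d j).natAbs)
        ≤ (3 * K + 1) * 2 ^ (3 * K) * (Nat.log a.natAbs ((a - b).natAbs * ((K * C) * (K * C)) +
          2 * b.natAbs * (K * C)) + 1) := by
          apply Nat.mul_le_mul
          · exact Nat.mul_le_mul (by omega) hpow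
          · omega
      _ < p := by omega

theorem part3 {a b : ℤ} (hab : IsCoprime a b) (ha1 : 1 < a) (hb1 : -a < b) (hb2 : b < a)
    (h : ¬ Admissible a b) :
    ∃ K C : ℕ, ∀ p₀ : ℕ, ∃ p, p₀ ≤ p ∧ p.Prime ∧ ¬ Euclid a b K C p := by
  have hba : |b| < a := abs_lt.2 ⟨hb1, hb2⟩
  by_cases hpow : ∃ r : ℕ, 1 < r ∧ ∃ u v : ℤ, a = u ^ r ∧ b = v ^ r
  · obtain ⟨r, hr, u₀, v₀, ha, hb⟩ := hpow
    obtain ⟨u, v, hu, ha', hb'⟩ : ∃ u v : ℤ, 0 < u ∧ a = u ^ r ∧ b = v ^ r := by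
      rcases Nat.even_or_odd r with he | ho
      · refine ⟨|u₀|, v₀, ?_, ?_, hb⟩
        · apply abs_pos.2
          rintro rfl
          rw [zero_pow (by omega)] at ha
          omega
        · rw [he.pow_abs]; exact ha
      · refine ⟨u₀, v₀, ?_, ha, hb⟩
        by_contra hcon
        push Not at hcon
        have := ho.pow_nonpos_iff.2 hcon
        omega
    refine ⟨r + 2, 2 * a.natAbs ^ (r + 1), ?_⟩
    intro p₀
    obtain ⟨p, hp, hpp⟩ := Nat.exists_infinite_primes (p₀ + r + 2 * a.natAbs + 8)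
    refine ⟨p, by omega, hpp, ?_⟩
    intro hE
    obtain ⟨m₁, m₂, mq, x, y, q, hdeg, hx, hy, hq, hxy, hnx, hny⟩ :=
      violation_pow ha1 hba hab (by omega) hu ha' hb' hpp (by omega) (by omega) (by
        have h1 : 2 * a.natAbs < 2 ^ (p - 1) := by
          calc 2 * a.natAbs < p - 1 := by omega
            _ < 2 ^ (p - 1) := Nat.lt_two_pow_self
        have h2 : ((2 * a.natAbs : ℕ) : ℤ) < ((2 ^ (p - 1) : ℕ) : ℤ) := by exact_mod_cast h1
        push_cast at h2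
        rw [abs_of_pos (by omega)] at h2
        exact h2)
    rcases hE m₁ m₂ mq x y q hdeg hx hy hq hxy with h3 | h3
    · exact hnx h3
    · exact hny h3
  · have h4 : ∃ f : ℤ, -4 * a * b = f ^ 4 := by
      by_contra hcon
      exact h ⟨hab, ha1, hb1, hb2, hpow, hcon⟩
    obtain ⟨w, hw⟩ := h4
    refine ⟨3, 2 * a.natAbs ^ 3, ?_⟩
    intro p₀
    obtain ⟨p, hp, hpp⟩ := Nat.exists_infinite_primes (p₀ + 8)
    refine ⟨p, by omega, hpp, ?_⟩
    intro hE
    obtain ⟨m₁, m₂, mq, x, y, q, hdeg, hx, hy, hq, hxy, hnx, hny⟩ :=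
      violation_four ha1 hba hab hw (hpp.odd_of_ne_two (by omega)) (by omega)
    rcases hE m₁ m₂ mq x y q hdeg hx hy hq hxy with h3 | h3
    · exact hnx h3
    · exact hny h3

/-- **The numbers `M_p(a, b)` behave like primes for sparse forms exactly for admissible pairs.**
(1) Euclid's lemma for products `x_1 ⋯ x_r = q M_p(a, b)` of values of forms with few terms, with
an explicit bound, for all admissible pairs.
(2) For coprime `a > 1`, `- a < b < a` the pair `(a, b)` is admissible if and only if for all `K`,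
`C` and all large primes `p` Euclid's lemma holds for `M_p(a, b)` and the values of forms with at
most `K` terms and coefficients at most `C`. -/
theorem result :
    (∀ a b : ℤ, Admissible a b → ∀ p r l : ℕ, p.Prime → 2 ≤ r → ∀ (k : Fin r → ℕ)
      (c : ∀ t, Fin (k t) → ℤ) (α : ∀ t, Fin (k t) → ℕ) (m : Fin r → ℕ) (d : Fin l → ℤ)
      (β : Fin l → ℕ) (mq : ℕ), (∀ t i, α t i ≤ m t) → (∀ j, β j ≤ mq) →
      ∑ t, m t + 1 = mq + p →
      ∏ t, value a b (m t) (c t) (α t) = value a b mq d β * M a b p →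
      ((∑ t, k t + l + 1 : ℕ) : ℝ) * Real.sqrt (2 * r) ^ (∑ t, k t + l) *
        Nat.log a.natAbs ((a - b).natAbs * ∏ t, ∑ i, (c t i).natAbs +
          2 * b.natAbs * ∑ j, (d j).natAbs) < p →
      ∃ t, M a b p ∣ value a b (m t) (c t) (α t)) ∧
    (∀ a b : ℤ, IsCoprime a b → 1 < a → -a < b → b < a →
      (Admissible a b ↔ ∀ K C : ℕ, ∃ p₀ : ℕ, ∀ p, p₀ ≤ p → p.Prime → Euclid a b K C p)) := by
  refine ⟨fun a b h p r l hp hr k c α m d β mq hα hβ hdeg hprod hbig =>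
    part1 h hp hr k c α m d β mq hα hβ hdeg hprod hbig, ?_⟩
  intro a b hab ha1 hb1 hb2
  constructor
  · intro h K C
    exact part2 h K C
  · intro h
    by_contra hcon
    obtain ⟨K, C, hKC⟩ := part3 hab ha1 hb1 hb2 hcon
    obtain ⟨p₀, hp₀⟩ := h K C
    obtain ⟨p, hp, hpp, hnE⟩ := hKC p₀
    exact hnE (hp₀ p hp hpp)

end Pool.Agent.Results.MP_de9007_nt.SparseForms
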